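import Mathlib

/-!
# The Lévy dragon: definition, self-similarity, an invariant octagon
-/

set_option autoImplicit false

open Set Metric Bornology MeasureTheory Topology

namespace Pool.Agent.Helper60.LD

/-- `(1 + i) / 2` -/
noncomputable def al : ℂ := ⟨1 / 2, 1 / 2⟩
/-- `(1 - i) / 2` -/
noncomputable def be : ℂ := ⟨1 / 2, -1 / 2⟩

@[simp] lemma al_re : al.re = 1 / 2 := rfl
@[simp] lemma al_im : al.im = 1 / 2 := rfl
@[simp] lemma be_re : be.re = 1 / 2 := rfl
@[simp] lemma be_im : be.im = -1 / 2 := rfl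

lemma al_ne : al ≠ 0 := by
  intro h
  have := congrArg Complex.re h
  norm_num at this

lemma be_ne : be ≠ 0 := by
  intro h
  have := congrArg Complex.re h
  norm_num at this

lemma al_add_be : al + be = 1 := by
  apply Complex.ext <;> simp <;> norm_num

/-- the vertices of the polygons which approximate the Lévy dragon -/
inductive V : ℂ → Prop
  | zero : V 0
  | one : V 1
  | left (z : ℂ) : V z → V (al * z)
  | right (z : ℂ) : V z → V (be * z + al)

/-- the Lévy dragon -/
def L : Set ℂ := closure {z | V z}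

lemma zero_mem : (0 : ℂ) ∈ L := subset_closure V.zero
lemma one_mem : (1 : ℂ) ∈ L := subset_closure V.one

lemma isClosed_L : IsClosed L := isClosed_closure

/-- `z ↦ (1 + i) / 2 * z` -/
noncomputable def f0 : ℂ ≃ₜ ℂ := Homeomorph.mulLeft₀ al al_ne
/-- `z ↦ (1 - i) / 2 * z + (1 + i) / 2` -/
noncomputable def f1 : ℂ ≃ₜ ℂ := (Homeomorph.mulLeft₀ be be_ne).trans (Homeomorph.addRight al)

lemma f0_apply (z : ℂ) : f0 z = al * z := rfl
lemma f1_apply (z : ℂ) : f1 z = be * z + al := rfl

lemma V_eq : {z | V z} = f0 '' {z | V z} ∪ f1 '' {z | V z} := by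
  apply Subset.antisymm
  · intro z hz
    cases hz with
    | zero => exact Or.inl ⟨0, V.zero, by simp [f0_apply]⟩
    | one => exact Or.inr ⟨1, V.one, by rw [f1_apply, mul_one, add_comm, al_add_be]⟩
    | left w hw => exact Or.inl ⟨w, hw, rfl⟩
    | right w hw => exact Or.inr ⟨w, hw, rfl⟩
  · rintro _ (⟨w, hw, rfl⟩ | ⟨w, hw, rfl⟩)
    · exact V.left w hw
    · exact V.right w hw

lemma L_eq : L = f0 '' L ∪ f1 '' L := by
  have h : closure {z | V z} = closure (f0 '' {z | V z} ∪ f1 '' {z | V z}) := congrArg closure V_eq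
  rw [closure_union, ← f0.image_closure, ← f1.image_closure] at h
  exact h

lemma f0_mem {z : ℂ} (hz : z ∈ L) : al * z ∈ L := by
  rw [L_eq]
  exact Or.inl ⟨z, hz, rfl⟩

lemma f1_mem {z : ℂ} (hz : z ∈ L) : be * z + al ∈ L := by
  rw [L_eq]
  exact Or.inr ⟨z, hz, rfl⟩

/-- an octagon which contains the dragon -/
def B : Set ℂ := {z | -1 / 4 ≤ z.im ∧ z.im ≤ 1 ∧ -1 / 2 ≤ z.re ∧ z.re ≤ 3 / 2 ∧
  -1 / 2 ≤ z.re + z.im ∧ z.re + z.im ≤ 2 ∧ -1 ≤ z.re - z.im ∧ z.re - z.im ≤ 3 / 2}

lemma isClosed_B : IsClosed B := by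
  have h1 := Complex.continuous_re
  have h2 := Complex.continuous_im
  unfold B
  simp only [ofPred_and]
  refine (isClosed_le continuous_const h2).inter <| (isClosed_le h2 continuous_const).inter <|
    (isClosed_le continuous_const h1).inter <| (isClosed_le h1 continuous_const).inter <|
    (isClosed_le continuous_const (h1.add h2)).inter <|
    (isClosed_le (h1.add h2) continuous_const).inter <|
    (isClosed_le continuous_const (h1.sub h2)).inter <|
    (isClosed_le (h1.sub h2) continuous_const)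

lemma V_sub_B {z : ℂ} (hz : V z) : z ∈ B := by
  induction hz with
  | zero => simp only [B, mem_ofPred_eq, Complex.zero_re, Complex.zero_im]; norm_num
  | one => simp only [B, mem_ofPred_eq, Complex.one_re, Complex.one_im]; norm_num
  | left w _ ih =>
    simp only [B, mem_ofPred_eq, Complex.mul_re, Complex.mul_im, al_re, al_im] at ih ⊢
    obtain ⟨h1, h2, h3, h4, h5, h6, h7, h8⟩ := ih
    refine ⟨?_, ?_, ?_, ?_, ?_, ?_, ?_, ?_⟩ <;> linarith
  | right w _ ih =>
    simp only [B, mem_ofPred_eq, Complex.mul_re, Complex.mul_im, al_re, al_im, be_re, be_im,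
      Complex.add_re, Complex.add_im] at ih ⊢
    obtain ⟨h1, h2, h3, h4, h5, h6, h7, h8⟩ := ih
    refine ⟨?_, ?_, ?_, ?_, ?_, ?_, ?_, ?_⟩ <;> linarith

lemma L_sub_B : L ⊆ B := closure_minimal (fun _ hz => V_sub_B hz) isClosed_B

lemma im_gt {z : ℂ} (hz : z ∈ L) : -1 < z.im := by
  have := (L_sub_B hz).1
  linarith

lemma norm_le {z : ℂ} (hz : z ∈ L) : ‖z‖ ≤ 3 := by
  obtain ⟨h1, h2, h3, h4, -⟩ := L_sub_B hz
  have h5 := Complex.norm_le_abs_re_add_abs_im z
  have h6 : |z.re| ≤ 3 / 2 := abs_le.2 ⟨by linarith, h4⟩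
  have h7 : |z.im| ≤ 1 := abs_le.2 ⟨by linarith, h2⟩
  linarith

lemma isBounded_L : IsBounded L :=
  isBounded_iff_forall_norm_le.2 ⟨3, fun _ hz => norm_le hz⟩

lemma isCompact_L : IsCompact L := isCompact_of_isClosed_isBounded isClosed_L isBounded_L

/-! ### a point outside the dragon -/

lemma notMem_step {z : ℂ} (h0 : (1 - Complex.I) * z ∉ L) (h1 : (1 + Complex.I) * z - Complex.I ∉ L) :
    z ∉ L := by
  intro hz
  rw [L_eq] at hz
  rcases hz with ⟨w, hw, rfl⟩ | ⟨w, hw, rfl⟩
  · apply h0
    have : (1 - Complex.I) * f0 w = w := by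
      rw [f0_apply]
      apply Complex.ext <;> simp <;> ring
    rwa [this]
  · apply h1
    have : (1 + Complex.I) * f1 w - Complex.I = w := by
      rw [f1_apply]
      apply Complex.ext <;> simp <;> ring
    rwa [this]

/-- the point `(p + q i) / 8` -/
noncomputable def pt (p q : ℤ) : ℂ := ⟨p / 8, q / 8⟩

/-- a certificate that `(p + q i) / 8` is not in the dragon -/
def dead : ℕ → ℤ → ℤ → Bool
  | 0, _, _ => false
  | n + 1, p, q =>
    (q < -2 || 8 < q || p < -4 || 12 < p || p + q < -4 || 16 < p + q || p - q < -8 || 12 < p - q) ||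
      (dead n (p + q) (q - p) && dead n (p - q) (p + q - 8))

lemma notMem_of_dead (n : ℕ) : ∀ p q : ℤ, dead n p q = true → pt p q ∉ L := by
  induction n with
  | zero => intro p q h; simp [dead] at h
  | succ n ih =>
    intro p q h
    rw [dead, Bool.or_eq_true, Bool.and_eq_true] at h
    rcases h with h | ⟨h1, h2⟩
    · intro hL
      obtain ⟨b1, b2, b3, b4, b5, b6, b7, b8⟩ := L_sub_B hL
      simp only [pt] at b1 b2 b3 b4 b5 b6 b7 b8
      have c1 : (-2 : ℤ) ≤ q := by
        have : (-2 : ℝ) ≤ q := by linarith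
        exact_mod_cast this
      have c2 : q ≤ 8 := by
        have : (q : ℝ) ≤ 8 := by linarith
        exact_mod_cast this
      have c3 : (-4 : ℤ) ≤ p := by
        have : (-4 : ℝ) ≤ p := by linarith
        exact_mod_cast this
      have c4 : p ≤ 12 := by
        have : (p : ℝ) ≤ 12 := by linarith
        exact_mod_cast this
      have c5 : (-4 : ℤ) ≤ p + q := by
        have : (-4 : ℝ) ≤ p + q := by linarith
        exact_mod_cast this
      have c6 : p + q ≤ 16 := by
        have : (p : ℝ) + q ≤ 16 := by linarith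
        exact_mod_cast this
      have c7 : (-8 : ℤ) ≤ p - q := by
        have : (-8 : ℝ) ≤ p - q := by linarith
        exact_mod_cast this
      have c8 : p - q ≤ 12 := by
        have : (p : ℝ) - q ≤ 12 := by linarith
        exact_mod_cast this
      simp only [Bool.or_eq_true, decide_eq_true_eq] at h
      omega
    · apply notMem_step
      · have : (1 - Complex.I) * pt p q = pt (p + q) (q - p) := by
          apply Complex.ext <;> simp [pt] <;> ring
        rw [this]
        exact ih _ _ h1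
      · have : (1 + Complex.I) * pt p q - Complex.I = pt (p - q) (p + q - 8) := by
          apply Complex.ext <;> simp [pt] <;> ring
        rw [this]
        exact ih _ _ h2

/-- the point `1/2 + 5/8 i` -/
noncomputable def X0 : ℂ := ⟨1 / 2, 5 / 8⟩

lemma X0_notMem : X0 ∉ L := by
  have h : X0 = pt 4 5 := by
    apply Complex.ext <;> simp [pt, X0]
    norm_num
  rw [h]
  exact notMem_of_dead 12 4 5 (by decide)

end Pool.Agent.Helper60.LD
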