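import Pool.Agent.Helper60.LD.Basic

/-!
# The Lévy dragon has a hole
-/

set_option autoImplicit false

open Set Metric Bornology Topology
open scoped ComplexConjugate

namespace Pool.Agent.Helper60.LD

/-- the copy of the dragon on the oriented edge from `a` to `b` -/
def Le (a b : ℂ) : Set ℂ := (fun z => a + (b - a) * z) '' L

/-- the new vertex over the oriented edge from `a` to `b` -/
noncomputable def tent (a b : ℂ) : ℂ := a + (b - a) * al

lemma left_mem (a b : ℂ) : a ∈ Le a b := ⟨0, zero_mem, by simp⟩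
lemma right_mem (a b : ℂ) : b ∈ Le a b := ⟨1, one_mem, by simp⟩

lemma be_eq : be = 1 - al := by rw [← al_add_be]; ring

lemma Le_left (a b : ℂ) : Le a (tent a b) ⊆ Le a b := by
  rintro _ ⟨z, hz, rfl⟩
  exact ⟨al * z, f0_mem hz, by simp only [tent]; ring⟩

lemma Le_right (a b : ℂ) : Le (tent a b) b ⊆ Le a b := by
  rintro _ ⟨z, hz, rfl⟩
  exact ⟨be * z + al, f1_mem hz, by simp only [tent, be_eq]; ring⟩

lemma tent_mem (a b : ℂ) : tent a b ∈ Le a b := Le_left a b (right_mem _ _)

/-- the total change of the argument around `x` along the polygon of level `m` from `a` to `b` -/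
noncomputable def ws : ℕ → ℂ → ℂ → ℂ → ℝ
  | 0, x, a, b => Complex.arg ((b - x) / (a - x))
  | m + 1, x, a, b => ws m x a (tent a b) + ws m x (tent a b) b

lemma exp_ws (m : ℕ) : ∀ x a b : ℂ, x ∉ Le a b →
    (‖(b - x) / (a - x)‖ : ℂ) * Complex.exp (ws m x a b * Complex.I) = (b - x) / (a - x) := by
  induction m with
  | zero =>
    intro x a b _
    exact Complex.norm_mul_exp_arg_mul_I _
  | succ m ih =>
    intro x a b hx
    have h1 := ih x a (tent a b) fun h => hx (Le_left a b h)
    have h2 := ih x (tent a b) b fun h => hx (Le_right a b h)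
    have hc : tent a b - x ≠ 0 := fun h => hx (by rw [← sub_eq_zero.1 h]; exact tent_mem a b)
    have ha : a - x ≠ 0 := fun h => hx (by rw [← sub_eq_zero.1 h]; exact left_mem a b)
    have h3 : (b - x) / (a - x) = (tent a b - x) / (a - x) * ((b - x) / (tent a b - x)) := by
      field_simp
    rw [ws, Complex.ofReal_add, add_mul, Complex.exp_add]
    conv_rhs => rw [h3, ← h1, ← h2]
    rw [h3, norm_mul, Complex.ofReal_mul]
    ring

lemma arg_div {p q : ℂ} (hp : 0 < p.re) (hq : 0 < q.re) :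
    Complex.arg (q / p) = Complex.arg q - Complex.arg p := by
  have h1 : |Complex.arg p| < Real.pi / 2 := Complex.abs_arg_lt_pi_div_two_iff.2 (Or.inl hp)
  have h2 : |Complex.arg q| < Real.pi / 2 := Complex.abs_arg_lt_pi_div_two_iff.2 (Or.inl hq)
  rw [abs_lt] at h1 h2
  have hp0 : p ≠ 0 := fun h => by rw [h] at hp; simp at hp
  have hq0 : q ≠ 0 := fun h => by rw [h] at hq; simp at hq
  have h3 : Complex.arg p⁻¹ = -Complex.arg p := by
    rw [Complex.arg_inv, if_neg]
    intro h
    linarith [Real.pi_pos]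
  rw [div_eq_mul_inv, Complex.arg_mul hq0 (inv_ne_zero hp0), h3]
  · ring
  · rw [h3]
    constructor <;> linarith [Real.pi_pos]

lemma ws_half (u : ℂ) (m : ℕ) : ∀ x a b : ℂ, (∀ z ∈ Le a b, 0 < ((z - x) * conj u).re) →
    ws m x a b = Complex.arg ((b - x) * conj u) - Complex.arg ((a - x) * conj u) := by
  induction m with
  | zero =>
    intro x a b h
    have ha := h a (left_mem a b)
    have hb := h b (right_mem a b)
    rw [ws, ← arg_div ha hb]
    congr 1
    have hu : conj u ≠ 0 := fun h0 => by rw [h0] at ha; simp at ha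
    rw [mul_div_mul_right _ _ hu]
  | succ m ih =>
    intro x a b h
    rw [ws, ih x a (tent a b) fun z hz => h z (Le_left a b hz),
      ih x (tent a b) b fun z hz => h z (Le_right a b hz)]
    ring

lemma ws_half' {u : ℂ} (m : ℕ) {x a b : ℂ} (h : ∀ z ∈ Le a b, 0 < ((z - x) * conj u).re) :
    ws m x a b = Complex.arg ((b - x) / (a - x)) := by
  rw [ws_half u m x a b h, ← ws_half u 0 x a b h, ws]

lemma norm_be : ‖be‖ = ‖al‖ := by
  rw [← sq_eq_sq₀ (norm_nonneg _) (norm_nonneg _), ← Complex.normSq_eq_norm_sq,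
    ← Complex.normSq_eq_norm_sq, Complex.normSq_apply, Complex.normSq_apply]
  simp
  norm_num

lemma continuousAt_ws (m : ℕ) : ∀ x a b : ℂ, (∀ w ∈ Le a b, ‖b - a‖ * ‖al‖ ^ m < dist x w) →
    ContinuousAt (fun x => ws m x a b) x := by
  induction m with
  | zero =>
    intro x a b h
    have h1 := h a (left_mem a b)
    rw [pow_zero, mul_one, dist_comm, dist_eq_norm] at h1
    have h2 : 0 < ‖a - x‖ := (norm_nonneg _).trans_lt h1
    have ha : a - x ≠ 0 := norm_pos_iff.1 h2
    have h3 : (b - x) / (a - x) = 1 + (b - a) / (a - x) := by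
      field_simp
      ring
    have h4 : 0 < ((b - x) / (a - x)).re := by
      rw [h3, Complex.add_re, Complex.one_re]
      have h5 : |((b - a) / (a - x)).re| ≤ ‖(b - a) / (a - x)‖ := Complex.abs_re_le_norm _
      have h6 : ‖(b - a) / (a - x)‖ < 1 := by
        rw [norm_div, div_lt_one h2]
        exact h1
      have h7 := neg_abs_le ((b - a) / (a - x)).re
      linarith
    have h8 : ContinuousAt (fun x => (b - x) / (a - x)) x :=
      (continuousAt_const.sub continuousAt_id).div (continuousAt_const.sub continuousAt_id) ha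
    exact ContinuousAt.comp (f := fun x => (b - x) / (a - x)) (g := Complex.arg)
      (Complex.continuousAt_arg (Or.inl h4)) h8
  | succ m ih =>
    intro x a b h
    have h1 : ‖tent a b - a‖ = ‖b - a‖ * ‖al‖ := by
      rw [← norm_mul, tent]
      congr 1
      ring
    have h2 : ‖b - tent a b‖ = ‖b - a‖ * ‖al‖ := by
      rw [← norm_be, ← norm_mul, tent, be_eq]
      congr 1
      ring
    refine (ih x a (tent a b) fun w hw => ?_).add (ih x (tent a b) b fun w hw => ?_)
    · rw [h1, mul_assoc, ← pow_succ']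
      exact h w (Le_left a b hw)
    · rw [h2, mul_assoc, ← pow_succ']
      exact h w (Le_right a b hw)

lemma seg_neg (m : ℕ) {a d p q v r : ℂ} (hd : d ≠ 0)
    (h : ∀ w : ℂ, ((p + (q - p) * w - 1 / 2) * conj v).re = 1 / 2 + w.im / 2)
    (hp : p - 1 / 2 ≠ 0) (hr : q - 1 / 2 = r * (p - 1 / 2)) (him : r.im < 0) :
    ws m (a + d / 2) (a + d * p) (a + d * q) < 0 := by
  have hdd : 0 < Complex.normSq d := Complex.normSq_pos.2 hd
  have h1 : ∀ z ∈ Le (a + d * p) (a + d * q), 0 < ((z - (a + d / 2)) * conj (d * v)).re := by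
    rintro _ ⟨w, hw, rfl⟩
    have h2 : (a + d * p + (a + d * q - (a + d * p)) * w - (a + d / 2)) * conj (d * v) =
        (Complex.normSq d : ℂ) * ((p + (q - p) * w - 1 / 2) * conj v) := by
      rw [← Complex.mul_conj d, map_mul]
      ring
    simp only
    rw [h2, Complex.re_ofReal_mul, h w]
    apply mul_pos hdd
    have := im_gt hw
    linarith
  rw [ws_half' m h1]
  have h3 : (a + d * q - (a + d / 2)) / (a + d * p - (a + d / 2)) = r := by
    have h4 : a + d * q - (a + d / 2) = d * (q - 1 / 2) := by ring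
    have h5 : a + d * p - (a + d / 2) = d * (p - 1 / 2) := by ring
    rw [h4, h5, hr, div_eq_iff (mul_ne_zero hd hp)]
    ring
  rw [h3]
  exact Complex.arg_neg_iff.2 him

/-- the argument around the midpoint of an edge decreases along the polygon over the edge -/
lemma ws_mid_neg {a b : ℂ} (hab : a ≠ b) (m : ℕ) : ws (m + 2) ((a + b) / 2) a b < 0 := by
  set d : ℂ := b - a with hd
  have hd0 : d ≠ 0 := sub_ne_zero.2 hab.symm
  have hb : b = a + d * 1 := by rw [hd]; ring
  have ha : a = a + d * 0 := by ring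
  have hx : (a + b) / 2 = a + d / 2 := by rw [hb]; ring
  have halI : al = 1 / 2 + Complex.I / 2 := by apply Complex.ext <;> simp
  have hII : Complex.I * Complex.I = -1 := Complex.I_mul_I
  have hc : tent a b = a + d * al := rfl
  have hc1 : tent a (tent a b) = a + d * (Complex.I / 2) := by
    rw [hc, tent, halI]
    linear_combination (d / 4) * hII
  have hc2 : tent (tent a b) b = a + d * (1 + Complex.I / 2) := by
    rw [hc, tent, hb, halI]
    linear_combination (-d / 4) * hII
  have s1 : ws m (a + d / 2) (a + d * 0) (a + d * (Complex.I / 2)) < 0 := by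
    refine seg_neg m (v := -1) (r := 1 - Complex.I) hd0 ?_ ?_ ?_ ?_
    · intro w
      simp
      ring
    · norm_num
    · ring
    · simp
  have s2 : ws m (a + d / 2) (a + d * (Complex.I / 2)) (a + d * al) < 0 := by
    refine seg_neg m (v := Complex.I) (r := (1 - Complex.I) / 2) hd0 ?_ ?_ ?_ ?_
    · intro w
      simp
      ring
    · intro h0
      have := congrArg Complex.im h0
      simp at this
    · rw [halI]
      linear_combination (1 / 4 : ℂ) * hII
    · simp
      norm_num
  have s3 : ws m (a + d / 2) (a + d * al) (a + d * (1 + Complex.I / 2)) < 0 := by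
    refine seg_neg m (v := Complex.I) (r := 1 - Complex.I) hd0 ?_ ?_ ?_ ?_
    · intro w
      simp
      ring
    · intro h0
      have := congrArg Complex.im h0
      simp at this
    · rw [halI]
      linear_combination (1 / 2 : ℂ) * hII
    · simp
  have s4 : ws m (a + d / 2) (a + d * (1 + Complex.I / 2)) (a + d * 1) < 0 := by
    refine seg_neg m (v := 1) (r := (1 - Complex.I) / 2) hd0 ?_ ?_ ?_ ?_
    · intro w
      simp
      ring
    · intro h0
      have := congrArg Complex.im h0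
      simp at this
    · linear_combination (1 / 4 : ℂ) * hII
    · simp
      norm_num
  rw [hx, ws, ws, ws, hc1, hc2, hc]
  rw [← ha] at s1
  rw [← hb] at s4
  linarith

/-! ### the two copies of the dragon on the segment from `1/2 + 3/4 i` to `1/2 + 1/2 i` -/

/-- `1/2 + 3/4 i` -/
noncomputable def a0 : ℂ := ⟨1 / 2, 3 / 4⟩
/-- `1/2 + 1/2 i` -/
noncomputable def b0 : ℂ := ⟨1 / 2, 1 / 2⟩

lemma Le_zero_one : Le 0 1 = L := by
  simp [Le]

lemma Le_a_b : Le a0 b0 ⊆ L := by
  have e1 : tent 0 1 = b0 := by apply Complex.ext <;> simp [tent, b0]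
  have e2 : tent 0 b0 = ⟨0, 1 / 2⟩ := by apply Complex.ext <;> simp [tent, b0] <;> norm_num
  have e3 : tent ⟨0, 1 / 2⟩ b0 = ⟨1 / 4, 3 / 4⟩ := by
    apply Complex.ext <;> simp [tent, b0] <;> norm_num
  have e4 : tent ⟨1 / 4, 3 / 4⟩ b0 = a0 := by
    apply Complex.ext <;> simp [tent, a0, b0] <;> norm_num
  have h1 := Le_left 0 1
  rw [e1, Le_zero_one] at h1
  have h2 := Le_right 0 b0
  rw [e2] at h2
  have h3 := Le_right ⟨0, 1 / 2⟩ b0
  rw [e3] at h3
  have h4 := Le_right ⟨1 / 4, 3 / 4⟩ b0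
  rw [e4] at h4
  exact h4.trans (h3.trans (h2.trans h1))

lemma Le_b_a : Le b0 a0 ⊆ L := by
  have e1 : tent 0 1 = b0 := by apply Complex.ext <;> simp [tent, b0]
  have e2 : tent b0 1 = ⟨1, 1 / 2⟩ := by apply Complex.ext <;> simp [tent, b0] <;> norm_num
  have e3 : tent b0 ⟨1, 1 / 2⟩ = ⟨3 / 4, 3 / 4⟩ := by
    apply Complex.ext <;> simp [tent, b0] <;> norm_num
  have e4 : tent b0 ⟨3 / 4, 3 / 4⟩ = a0 := by
    apply Complex.ext <;> simp [tent, a0, b0] <;> norm_num
  have h1 := Le_right 0 1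
  rw [e1, Le_zero_one] at h1
  have h2 := Le_left b0 1
  rw [e2] at h2
  have h3 := Le_left b0 ⟨1, 1 / 2⟩
  rw [e3] at h3
  have h4 := Le_left b0 ⟨3 / 4, 3 / 4⟩
  rw [e4] at h4
  exact h4.trans (h3.trans (h2.trans h1))

lemma a0_ne_b0 : a0 ≠ b0 := by
  intro h
  have := congrArg Complex.im h
  norm_num [a0, b0] at this

lemma X0_eq : X0 = (a0 + b0) / 2 := by
  apply Complex.ext <;> simp [X0, a0, b0] <;> norm_num

/-- the total change of the argument along the closed polygon of level `m + 2` -/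
noncomputable def W (m : ℕ) (x : ℂ) : ℝ := ws (m + 2) x a0 b0 + ws (m + 2) x b0 a0

lemma W_X0 (m : ℕ) : W m X0 < 0 := by
  have h1 := ws_mid_neg a0_ne_b0 m
  have h2 := ws_mid_neg a0_ne_b0.symm m
  rw [add_comm b0 a0] at h2
  rw [W, X0_eq]
  linarith

lemma W_far (m : ℕ) {y : ℂ} (hy : 3 < ‖y‖) : W m y = 0 := by
  have key : ∀ z ∈ L, 0 < ((z - y) * conj (-y)).re := by
    intro z hz
    have h1 := norm_le hz
    have h2 : ((z - y) * conj (-y)).re = ‖y‖ ^ 2 - (z * conj y).re := by
      rw [← Complex.normSq_eq_norm_sq, Complex.normSq_apply]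
      simp
      ring
    have h3 : (z * conj y).re ≤ ‖z‖ * ‖y‖ := by
      refine (Complex.re_le_norm _).trans ?_
      rw [norm_mul, Complex.norm_conj]
    rw [h2]
    nlinarith [norm_nonneg z]
  rw [W, ws_half (-y) _ y a0 b0 fun z hz => key z (Le_a_b hz),
    ws_half (-y) _ y b0 a0 fun z hz => key z (Le_b_a hz)]
  ring

lemma exp_W (m : ℕ) {x : ℂ} (hx : x ∉ L) : Complex.exp (W m x * Complex.I) = 1 := by
  have h1 := exp_ws (m + 2) x a0 b0 fun h => hx (Le_a_b h)
  have h2 := exp_ws (m + 2) x b0 a0 fun h => hx (Le_b_a h)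
  have ha : a0 - x ≠ 0 := fun h => hx (by rw [← sub_eq_zero.1 h]; exact Le_a_b (left_mem _ _))
  have hb : b0 - x ≠ 0 := fun h => hx (by rw [← sub_eq_zero.1 h]; exact Le_a_b (right_mem _ _))
  have h3 : (b0 - x) / (a0 - x) * ((a0 - x) / (b0 - x)) = 1 := by field_simp
  have h4 : (‖(b0 - x) / (a0 - x)‖ : ℂ) * (‖(a0 - x) / (b0 - x)‖ : ℂ) = 1 := by
    rw [← Complex.ofReal_mul, ← norm_mul, h3, norm_one, Complex.ofReal_one]
  rw [W, Complex.ofReal_add, add_mul, Complex.exp_add]
  calc _ = ((‖(b0 - x) / (a0 - x)‖ : ℂ) * Complex.exp (ws (m + 2) x a0 b0 * Complex.I)) *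
        ((‖(a0 - x) / (b0 - x)‖ : ℂ) * Complex.exp (ws (m + 2) x b0 a0 * Complex.I)) := by
        linear_combination (-(Complex.exp (ws (m + 2) x a0 b0 * Complex.I) *
          Complex.exp (ws (m + 2) x b0 a0 * Complex.I))) * h4
    _ = 1 := by rw [h1, h2, h3]

/-- the dragon has a hole: the component of `1/2 + 5/8 i` of the complement is bounded -/
theorem hole : IsBounded (connectedComponentIn Lᶜ X0) := by
  by_contra hb
  set U := connectedComponentIn Lᶜ X0 with hU
  have hUo : IsOpen U := isClosed_L.isOpen_compl.connectedComponentIn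
  have hX : X0 ∈ U := mem_connectedComponentIn X0_notMem
  have hUc : IsConnected U := ⟨⟨X0, hX⟩, isPreconnected_connectedComponentIn⟩
  obtain ⟨y, hyU, hy⟩ : ∃ y ∈ U, 3 < ‖y‖ := by
    by_contra! h
    exact hb (isBounded_iff_forall_norm_le.2 ⟨3, h⟩)
  have hpath : IsPathConnected U := (hUo.isConnected_iff_isPathConnected).1 hUc
  obtain ⟨γ, hγ⟩ := hpath.joinedIn X0 hX y hyU
  set C := range γ with hC
  have hCc : IsCompact C := isCompact_range γ.continuous
  have hCp : IsPreconnected C := isPreconnected_range γ.continuous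
  have hCL : ∀ x ∈ C, x ∉ L := by
    rintro _ ⟨t, rfl⟩
    exact connectedComponentIn_subset Lᶜ X0 (hγ t)
  have hXC : X0 ∈ C := ⟨0, γ.source⟩
  have hyC : y ∈ C := ⟨1, γ.target⟩
  obtain ⟨ε, hε, hd⟩ : ∃ ε > 0, ∀ x ∈ C, ∀ w ∈ L, ε ≤ dist x w := by
    obtain ⟨x1, hx1, hmin⟩ := hCc.exists_isMinOn ⟨X0, hXC⟩
      (continuous_infDist_pt L).continuousOn
    have hpos : 0 < infDist x1 L := by
      rw [← isClosed_L.notMem_iff_infDist_pos ⟨0, zero_mem⟩]
      exact hCL x1 hx1
    exact ⟨infDist x1 L, hpos, fun x hx w hw => (hmin hx).trans (infDist_le_dist_of_mem hw)⟩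
  have hal : ‖al‖ < 1 := by
    rw [← sq_lt_one_iff₀ (norm_nonneg _), ← Complex.normSq_eq_norm_sq, Complex.normSq_apply]
    simp
    norm_num
  obtain ⟨m, hm⟩ := exists_pow_lt_of_lt_one hε hal
  have hab : ‖b0 - a0‖ ≤ 1 := by
    refine (Complex.norm_le_abs_re_add_abs_im _).trans ?_
    norm_num [a0, b0]
  have hsmall : ‖b0 - a0‖ * ‖al‖ ^ (m + 2) < ε := by
    have h1 : ‖al‖ ^ (m + 2) ≤ ‖al‖ ^ m :=
      pow_le_pow_of_le_one (norm_nonneg _) hal.le (by omega)
    have h2 : 0 ≤ ‖al‖ ^ (m + 2) := by positivity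
    calc ‖b0 - a0‖ * ‖al‖ ^ (m + 2) ≤ 1 * ‖al‖ ^ (m + 2) := by gcongr
      _ < ε := by linarith
  have hcont : ContinuousOn (W m) C := by
    intro x hx
    refine ContinuousAt.continuousWithinAt ?_
    refine (continuousAt_ws (m + 2) x a0 b0 fun w hw => ?_).add
      (continuousAt_ws (m + 2) x b0 a0 fun w hw => ?_)
    · exact hsmall.trans_le (hd x hx w (Le_a_b hw))
    · rw [← norm_neg, neg_sub]
      exact hsmall.trans_le (hd x hx w (Le_b_a hw))
  have hIcc := hCp.intermediate_value hXC hyC hcont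
  rw [W_far m hy] at hIcc
  have hneg := W_X0 m
  obtain ⟨x, hx, hWx⟩ := hIcc (show max (W m X0) (-1) ∈ Icc (W m X0) 0 from
    ⟨le_max_left _ _, max_le hneg.le (by norm_num)⟩)
  have h1 := exp_W m (hCL x hx)
  rw [Complex.exp_eq_one_iff] at h1
  obtain ⟨n, hn⟩ := h1
  have h2 : W m x = n * (2 * Real.pi) := by
    have h3 := congrArg Complex.im hn
    simpa using h3
  have h4 : W m x < 0 := by rw [hWx]; exact max_lt hneg (by norm_num)
  have h5 : -1 ≤ W m x := by rw [hWx]; exact le_max_right _ _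
  have hpi := Real.pi_gt_three
  have h6 : (n : ℝ) < 0 := by
    by_contra h
    push Not at h
    have : 0 ≤ (n : ℝ) * (2 * Real.pi) := by positivity
    linarith
  have h7 : (n : ℝ) ≤ -1 := by
    have : n < 0 := by exact_mod_cast h6
    have : n ≤ -1 := by omega
    exact_mod_cast this
  nlinarith

end Pool.Agent.Helper60.LD
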