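import Pool.Agent.Helper60.LD.Basic

/-!
# The Lévy dragon is a `2`-reptile
-/

set_option autoImplicit false

open Set Metric Bornology MeasureTheory Topology Pointwise

namespace Pool.Agent.Helper60.LD

/-- an element of the Gaussian integers -/
noncomputable def gi (m n : ℤ) : ℂ := ⟨m, n⟩

/-- the placed copies of the dragon: on the edge which starts at `m + n i` in the direction `i ^ k` -/
noncomputable def place (t : ℤ × ℤ × Fin 4) : ℂ ≃ₜ ℂ :=
  (Homeomorph.mulLeft₀ (Complex.I ^ (t.2.2 : ℕ)) (pow_ne_zero _ Complex.I_ne_zero)).trans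
    (Homeomorph.addRight (gi t.1 t.2.1))

lemma place_apply (t : ℤ × ℤ × Fin 4) (z : ℂ) :
    place t z = Complex.I ^ (t.2.2 : ℕ) * z + gi t.1 t.2.1 := rfl

/-- the union of all the placed copies -/
def S : Set ℂ := ⋃ t, place t '' L

lemma locallyFinite_place : LocallyFinite fun t => place t '' L := by
  intro x
  refine ⟨ball x 1, ball_mem_nhds x one_pos, ?_⟩
  have hfin : (Icc (-⌈‖x‖ + 4⌉) ⌈‖x‖ + 4⌉ ×ˢ
      (Icc (-⌈‖x‖ + 4⌉) ⌈‖x‖ + 4⌉ ×ˢ (univ : Set (Fin 4)))).Finite :=
    (finite_Icc _ _).prod ((finite_Icc _ _).prod finite_univ)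
  refine hfin.subset ?_
  rintro ⟨m, n, k⟩ ⟨_, ⟨z, hz, rfl⟩, hx⟩
  rw [place_apply, mem_ball, dist_eq_norm] at hx
  simp only at hx
  have h1 : ‖gi m n‖ ≤ ‖x‖ + 4 := by
    have h2 : gi m n = (Complex.I ^ (k : ℕ) * z + gi m n - x) + x - Complex.I ^ (k : ℕ) * z := by
      ring
    have h3 : ‖Complex.I ^ (k : ℕ) * z‖ ≤ 3 := by
      rw [norm_mul, norm_pow, Complex.norm_I, one_pow, one_mul]
      exact norm_le hz
    rw [h2]
    calc _ ≤ ‖(Complex.I ^ (k : ℕ) * z + gi m n - x) + x‖ + ‖Complex.I ^ (k : ℕ) * z‖ :=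
          norm_sub_le _ _
      _ ≤ ‖(Complex.I ^ (k : ℕ) * z + gi m n - x)‖ + ‖x‖ + ‖Complex.I ^ (k : ℕ) * z‖ := by
          gcongr
          exact norm_add_le _ _
      _ ≤ _ := by linarith
  have h4 : |(m : ℝ)| ≤ ‖x‖ + 4 := (Complex.abs_re_le_norm (gi m n)).trans h1
  have h5 : |(n : ℝ)| ≤ ‖x‖ + 4 := (Complex.abs_im_le_norm (gi m n)).trans h1
  have h6 : ‖x‖ + 4 ≤ ⌈‖x‖ + 4⌉ := Int.le_ceil _
  rw [abs_le] at h4 h5
  refine ⟨⟨?_, ?_⟩, ⟨?_, ?_⟩, mem_univ _⟩
  · have : ((-⌈‖x‖ + 4⌉ : ℤ) : ℝ) ≤ m := by push_cast; linarith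
    exact_mod_cast this
  · have : (m : ℝ) ≤ ⌈‖x‖ + 4⌉ := by linarith
    exact_mod_cast this
  · have : ((-⌈‖x‖ + 4⌉ : ℤ) : ℝ) ≤ n := by push_cast; linarith
    exact_mod_cast this
  · have : (n : ℝ) ≤ ⌈‖x‖ + 4⌉ := by linarith
    exact_mod_cast this

lemma isClosed_S : IsClosed S :=
  locallyFinite_place.isClosed_iUnion fun t => (place t).isClosedMap _ isClosed_L

lemma gi_mem_S (m n : ℤ) : gi m n ∈ S :=
  mem_iUnion.2 ⟨(m, n, 0), 0, zero_mem, by simp [place_apply]⟩

lemma al_mul_mem {z : ℂ} (hz : z ∈ S) : al * z ∈ S := by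
  obtain ⟨⟨m, n, k⟩, w, hw, rfl⟩ := mem_iUnion.1 hz
  rw [place_apply]
  simp only
  rcases Int.even_or_odd (m + n) with he | ho
  · -- even base point
    obtain ⟨r, hr⟩ := he
    refine mem_iUnion.2 ⟨(m - r, r, k), al * w, f0_mem hw, ?_⟩
    rw [place_apply]
    simp only
    have h1 : al * gi m n = gi (m - r) r := by
      have hn : (n : ℝ) = r + r - m := by
        have : n = r + r - m := by omega
        rw [this]; push_cast; ring
      apply Complex.ext <;> simp [gi, hn] <;> ring
    rw [mul_add, h1]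
    ring
  · -- odd base point, direction `i ^ k`: shift by `i ^ (k + 1)`
    obtain ⟨r, hr⟩ := ho
    have hn : (n : ℝ) = r + r + 1 - m := by
      have : n = r + r + 1 - m := by omega
      rw [this]; push_cast; ring
    have key : ∀ u : ℂ, al * (u * w + gi m n) =
        Complex.I * u * (be * w + al) + al * (gi m n - Complex.I * u) := by
      intro u
      have h1 : Complex.I * be = al := by apply Complex.ext <;> simp <;> norm_num
      linear_combination (-(u * w)) * h1
    rw [key]
    have hb := f1_mem hw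
    fin_cases k
    · refine mem_iUnion.2 ⟨(m - r, r, 1), be * w + al, hb, ?_⟩
      have h1 : al * (gi m n - Complex.I * Complex.I ^ ((0 : Fin 4) : ℕ)) = gi (m - r) r := by
        apply Complex.ext <;> simp [gi, hn] <;> ring
      have h2 : Complex.I ^ ((1 : Fin 4) : ℕ) = Complex.I * Complex.I ^ ((0 : Fin 4) : ℕ) := by simp
      rw [place_apply, ← h1]
      simp only [h2]
      rfl
    · refine mem_iUnion.2 ⟨(m - r, r + 1, 2), be * w + al, hb, ?_⟩
      have h1 : al * (gi m n - Complex.I * Complex.I ^ ((1 : Fin 4) : ℕ)) = gi (m - r) (r + 1) := by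
        apply Complex.ext <;> simp [gi, hn] <;> ring
      have h2 : Complex.I ^ ((2 : Fin 4) : ℕ) = Complex.I * Complex.I ^ ((1 : Fin 4) : ℕ) := by
        simp [pow_two]
      rw [place_apply, ← h1]
      simp only [h2]
      rfl
    · refine mem_iUnion.2 ⟨(m - r - 1, r + 1, 3), be * w + al, hb, ?_⟩
      have h1 : al * (gi m n - Complex.I * Complex.I ^ ((2 : Fin 4) : ℕ)) =
          gi (m - r - 1) (r + 1) := by
        apply Complex.ext <;> simp [gi, hn] <;> ring
      have h2 : Complex.I ^ ((3 : Fin 4) : ℕ) = Complex.I * Complex.I ^ ((2 : Fin 4) : ℕ) := by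
        change Complex.I ^ 3 = Complex.I * Complex.I ^ 2
        ring
      rw [place_apply, ← h1]
      simp only [h2]
      rfl
    · refine mem_iUnion.2 ⟨(m - r - 1, r, 0), be * w + al, hb, ?_⟩
      have h1 : al * (gi m n - Complex.I * Complex.I ^ ((3 : Fin 4) : ℕ)) = gi (m - r - 1) r := by
        have h3 : Complex.I * Complex.I ^ ((3 : Fin 4) : ℕ) = 1 := by
          change Complex.I * Complex.I ^ 3 = 1
          rw [← pow_succ', Complex.I_pow_four]
        rw [h3]
        apply Complex.ext <;> simp [gi, hn] <;> ring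
      have h2 : Complex.I ^ ((0 : Fin 4) : ℕ) = Complex.I * Complex.I ^ ((3 : Fin 4) : ℕ) := by
        change Complex.I ^ 0 = Complex.I * Complex.I ^ 3
        rw [← pow_succ', Complex.I_pow_four, pow_zero]
      rw [place_apply, ← h1]
      simp only [h2]
      rfl

lemma norm_al_lt : ‖al‖ < 1 := by
  rw [← sq_lt_one_iff₀ (norm_nonneg _), ← Complex.normSq_eq_norm_sq, Complex.normSq_apply]
  simp
  norm_num

lemma S_eq_univ : S = univ := by
  rw [eq_univ_iff_forall]
  intro z
  have hcl : z ∈ closure S := by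
    rw [Metric.mem_closure_iff]
    intro ε hε
    obtain ⟨k, hk⟩ := exists_pow_lt_of_lt_one (show (0 : ℝ) < ε / 2 by positivity) norm_al_lt
    have hpk : al ^ k ≠ 0 := pow_ne_zero _ al_ne
    set y : ℂ := z / al ^ k with hy
    have hmem : ∀ j : ℕ, al ^ j * gi ⌊y.re⌋ ⌊y.im⌋ ∈ S := by
      intro j
      induction j with
      | zero => simpa using gi_mem_S _ _
      | succ j ih =>
        rw [pow_succ', mul_assoc]
        exact al_mul_mem ih
    refine ⟨_, hmem k, ?_⟩
    have hz : z = al ^ k * y := by rw [hy]; field_simp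
    rw [hz, dist_eq_norm, ← mul_sub, norm_mul, norm_pow]
    have h1 : ‖y - gi ⌊y.re⌋ ⌊y.im⌋‖ ≤ 2 := by
      refine (Complex.norm_le_abs_re_add_abs_im _).trans ?_
      have a1 : |(y - gi ⌊y.re⌋ ⌊y.im⌋).re| ≤ 1 := by
        have e1 := Int.floor_le y.re
        have e2 := Int.lt_floor_add_one y.re
        rw [abs_le]
        simp only [Complex.sub_re, gi]
        constructor <;> linarith
      have a2 : |(y - gi ⌊y.re⌋ ⌊y.im⌋).im| ≤ 1 := by
        have e1 := Int.floor_le y.im
        have e2 := Int.lt_floor_add_one y.im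
        rw [abs_le]
        simp only [Complex.sub_im, gi]
        constructor <;> linarith
      linarith
    calc ‖al‖ ^ k * ‖y - gi ⌊y.re⌋ ⌊y.im⌋‖ ≤ ‖al‖ ^ k * 2 := by gcongr
      _ < ε := by linarith
  rwa [isClosed_S.closure_eq] at hcl

/-- the dragon has interior points -/
lemma nonempty_interior : (interior L).Nonempty := by
  obtain ⟨t, ht⟩ := nonempty_interior_of_iUnion_of_closed
    (fun t : ℤ × ℤ × Fin 4 => (place t).isClosedMap _ isClosed_L) S_eq_univ
  rw [← (place t).image_interior] at ht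
  exact ht.of_image

lemma f0_interior {z : ℂ} (hz : z ∈ interior L) : al * z ∈ interior L := by
  have h1 : f0 '' interior L ⊆ L := by
    rintro _ ⟨w, hw, rfl⟩
    exact f0_mem (interior_subset hw)
  exact interior_maximal h1 (f0.isOpenMap _ isOpen_interior) ⟨z, hz, rfl⟩

lemma f1_interior {z : ℂ} (hz : z ∈ interior L) : be * z + al ∈ interior L := by
  have h1 : f1 '' interior L ⊆ L := by
    rintro _ ⟨w, hw, rfl⟩
    exact f1_mem (interior_subset hw)
  exact interior_maximal h1 (f1.isOpenMap _ isOpen_interior) ⟨z, hz, rfl⟩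

/-- the dragon is the closure of its interior -/
lemma closure_interior : closure (interior L) = L := by
  apply Subset.antisymm (closure_minimal interior_subset isClosed_L)
  have key : ∀ k : ℕ, ∀ z ∈ L, ∃ w ∈ interior L, ‖z - w‖ ≤ ‖al‖ ^ k * 6 := by
    obtain ⟨w0, hw0⟩ := nonempty_interior
    have hbe : ‖be‖ = ‖al‖ := by
      rw [← sq_eq_sq₀ (norm_nonneg _) (norm_nonneg _), ← Complex.normSq_eq_norm_sq,
        ← Complex.normSq_eq_norm_sq, Complex.normSq_apply, Complex.normSq_apply]
      simp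
      norm_num
    intro k
    induction k with
    | zero =>
      intro z hz
      refine ⟨w0, hw0, ?_⟩
      have h1 := norm_sub_le z w0
      have h2 := norm_le hz
      have h3 := norm_le (interior_subset hw0)
      linarith
    | succ k ih =>
      intro z hz
      rw [L_eq] at hz
      rcases hz with ⟨v, hv, rfl⟩ | ⟨v, hv, rfl⟩
      · obtain ⟨w, hw, h⟩ := ih v hv
        refine ⟨al * w, f0_interior hw, ?_⟩
        rw [f0_apply, ← mul_sub, norm_mul, pow_succ', mul_assoc]
        gcongr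
      · obtain ⟨w, hw, h⟩ := ih v hv
        refine ⟨be * w + al, f1_interior hw, ?_⟩
        rw [f1_apply, add_sub_add_right_eq_sub, ← mul_sub, norm_mul, pow_succ', mul_assoc, hbe]
        gcongr
  intro z hz
  rw [Metric.mem_closure_iff]
  intro ε hε
  obtain ⟨k, hk⟩ := exists_pow_lt_of_lt_one (show (0 : ℝ) < ε / 6 by positivity) norm_al_lt
  obtain ⟨w, hw, h⟩ := key k z hz
  refine ⟨w, hw, ?_⟩
  rw [dist_eq_norm]
  linarith

/-! ### the measure of the pieces -/

lemma volume_isometry (g : ℂ ≃ᵢ ℂ) (A : Set ℂ) : volume (g '' A) = volume A := by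
  have h1 : (g '' A) = (fun x => x + g 0) '' (g.toRealLinearIsometryEquiv '' A) := by
    rw [← image_comp]
    refine image_congr fun x _ => ?_
    simp only [Function.comp_apply, IsometryEquiv.toRealLinearIsometryEquiv_apply, sub_add_cancel]
  rw [h1]
  have h2 : volume ((fun x => x + g 0) '' (g.toRealLinearIsometryEquiv '' A)) =
      volume (g.toRealLinearIsometryEquiv '' A) := by
    simp [measure_preimage_add_right]
  rw [h2]
  have h3 : (g.toRealLinearIsometryEquiv '' A) = g.toRealLinearIsometryEquiv.symm ⁻¹' A := by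
    rw [← LinearIsometryEquiv.image_eq_preimage_symm]
  rw [h3]
  exact (g.toRealLinearIsometryEquiv.symm.measurePreserving).measure_preimage_emb
    (g.toRealLinearIsometryEquiv.symm.toHomeomorph.measurableEmbedding) A

lemma norm_sqrt_mul_al : ‖((√2 : ℝ) : ℂ) * al‖ = 1 := by
  rw [norm_mul, ← sq_eq_sq₀ (by positivity) zero_le_one, mul_pow, ← Complex.normSq_eq_norm_sq al,
    Complex.normSq_apply, Complex.norm_real, Real.norm_eq_abs, sq_abs, Real.sq_sqrt (by norm_num)]
  simp
  norm_num

lemma norm_sqrt_mul_be : ‖((√2 : ℝ) : ℂ) * be‖ = 1 := by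
  rw [norm_mul, ← sq_eq_sq₀ (by positivity) zero_le_one, mul_pow, ← Complex.normSq_eq_norm_sq be,
    Complex.normSq_apply, Complex.norm_real, Real.norm_eq_abs, sq_abs, Real.sq_sqrt (by norm_num)]
  simp
  norm_num

/-- the isometry `z ↦ c z + d`, `|c| = 1` -/
noncomputable def rigid (c d : ℂ) (hc : ‖c‖ = 1) : ℂ ≃ᵢ ℂ where
  toEquiv := ((Homeomorph.mulLeft₀ c (by
    intro h
    rw [h, norm_zero] at hc
    exact zero_ne_one hc)).trans (Homeomorph.addRight d)).toEquiv
  isometry_toFun := by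
    refine Isometry.of_dist_eq fun x y => ?_
    change dist (c * x + d) (c * y + d) = dist x y
    rw [dist_add_right, dist_eq_norm, ← mul_sub, norm_mul, hc, one_mul, dist_eq_norm]

lemma rigid_apply (c d : ℂ) (hc : ‖c‖ = 1) (z : ℂ) : rigid c d hc z = c * z + d := rfl

/-- the two isometries of the dragon -/
noncomputable def g : Fin 2 → (ℂ ≃ᵢ ℂ) :=
  ![rigid (((√2 : ℝ) : ℂ) * al) 0 norm_sqrt_mul_al, rigid (((√2 : ℝ) : ℂ) * be) al norm_sqrt_mul_be]

lemma g_zero_image : g 0 '' ((√2)⁻¹ • L) = f0 '' L := by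
  rw [← image_smul, image_image]
  refine image_congr fun x _ => ?_
  change (((√2 : ℝ) : ℂ) * al) * ((√2)⁻¹ • x) + 0 = al * x
  have h : ((√2 : ℝ) : ℂ) ≠ 0 := by
    rw [Ne, Complex.ofReal_eq_zero]
    positivity
  rw [Complex.real_smul, Complex.ofReal_inv]
  field_simp
  ring

lemma g_one_image : g 1 '' ((√2)⁻¹ • L) = f1 '' L := by
  rw [← image_smul, image_image]
  refine image_congr fun x _ => ?_
  change (((√2 : ℝ) : ℂ) * be) * ((√2)⁻¹ • x) + al = be * x + al
  have h : ((√2 : ℝ) : ℂ) ≠ 0 := by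
    rw [Ne, Complex.ofReal_eq_zero]
    positivity
  rw [Complex.real_smul, Complex.ofReal_inv]
  field_simp

lemma volume_piece (h : ℂ ≃ᵢ ℂ) : volume (h '' ((√2)⁻¹ • L)) = ENNReal.ofReal (1 / 2) * volume L := by
  rw [volume_isometry, Measure.addHaar_smul, Complex.finrank_real_complex, inv_pow,
    Real.sq_sqrt (by norm_num)]
  norm_num

lemma volume_ne_top : volume L ≠ ⊤ := isBounded_L.measure_lt_top.ne

lemma volume_inter : volume (f0 '' L ∩ f1 '' L) = 0 := by
  have h0 : volume (f0 '' L) = ENNReal.ofReal (1 / 2) * volume L := by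
    rw [← g_zero_image, volume_piece]
  have h1 : volume (f1 '' L) = ENNReal.ofReal (1 / 2) * volume L := by
    rw [← g_one_image, volume_piece]
  have hm : MeasurableSet (f1 '' L) := (f1.isClosedMap _ isClosed_L).measurableSet
  have h2 := measure_union_add_inter (μ := volume) (f0 '' L) hm
  rw [← L_eq, h0, h1, ← add_mul, ← ENNReal.ofReal_add (by norm_num) (by norm_num)] at h2
  norm_num at h2
  have h3 : volume L + volume (f0 '' L ∩ f1 '' L) = volume L + 0 := by rw [add_zero]; exact h2
  exact (ENNReal.add_right_inj volume_ne_top).1 h3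

lemma disjoint_pieces : Disjoint (interior (f0 '' L)) (interior (f1 '' L)) := by
  rw [disjoint_iff_inter_eq_empty]
  by_contra h
  have h1 : (interior (f0 '' L) ∩ interior (f1 '' L)).Nonempty := nonempty_iff_ne_empty.2 h
  have h2 := (isOpen_interior.inter isOpen_interior).measure_pos volume h1
  have h3 : volume (interior (f0 '' L) ∩ interior (f1 '' L)) = 0 :=
    measure_mono_null (inter_subset_inter interior_subset interior_subset) volume_inter
  exact h2.ne' h3

end Pool.Agent.Helper60.LD
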